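import Mathlib
import Pool.Agent.W667.DT.Stms

/-! # The triangular truncation is unbounded (S_MAT) -/

set_option autoImplicit false

namespace Pool.Agent.W965.DT

open Finset

/-- the dyadic matrix -/
noncomputable def Mt : ℕ → ℕ → ℕ → ℝ
  | 0, _, _ => 0
  | n + 1, i, j =>
    if i < 2 ^ n then (if j < 2 ^ n then Mt n i j else (2 ^ n : ℝ)⁻¹)
    else (if j < 2 ^ n then -(2 ^ n : ℝ)⁻¹ else Mt n (i - 2 ^ n) (j - 2 ^ n))

/-- the bilinear form -/
noncomputable def Bf (n : ℕ) (u v : ℕ → ℂ) : ℂ :=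
  ∑ i ∈ range (2 ^ n), ∑ j ∈ range (2 ^ n), (Mt n i j : ℂ) * u i * v j

/-- the total sum -/
noncomputable def Sf (n : ℕ) (u : ℕ → ℂ) : ℂ := ∑ i ∈ range (2 ^ n), u i

lemma sum_split {A : Type} [AddCommMonoid A] (n : ℕ) (f : ℕ → A) :
    ∑ i ∈ range (2 ^ (n + 1)), f i =
      ∑ i ∈ range (2 ^ n), f i + ∑ i ∈ range (2 ^ n), f (2 ^ n + i) := by
  rw [pow_succ, mul_two, sum_range_add]

lemma Bf_succ (n : ℕ) (u v : ℕ → ℂ) :
    Bf (n + 1) u v = Bf n u v + Bf n (fun i => u (2 ^ n + i)) (fun i => v (2 ^ n + i)) +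
      (2 ^ n : ℂ)⁻¹ * (Sf n u * Sf n (fun i => v (2 ^ n + i)) -
        Sf n (fun i => u (2 ^ n + i)) * Sf n v) := by
  unfold Bf
  rw [sum_split]
  have h1 : ∀ i ∈ range (2 ^ n), ∑ j ∈ range (2 ^ (n + 1)), (Mt (n + 1) i j : ℂ) * u i * v j =
      ∑ j ∈ range (2 ^ n), (Mt n i j : ℂ) * u i * v j +
        (2 ^ n : ℂ)⁻¹ * (u i * Sf n (fun i => v (2 ^ n + i))) := by
    intro i hi
    rw [mem_range] at hi
    rw [sum_split]
    congr 1
    · apply sum_congr rfl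
      intro j hj
      rw [mem_range] at hj
      rw [Mt, if_pos hi, if_pos hj]
    · unfold Sf
      rw [mul_sum, mul_sum]
      apply sum_congr rfl
      intro j hj
      rw [Mt, if_pos hi, if_neg (by omega)]
      push_cast
      ring
  have h2 : ∀ i ∈ range (2 ^ n), ∑ j ∈ range (2 ^ (n + 1)),
      (Mt (n + 1) (2 ^ n + i) j : ℂ) * u (2 ^ n + i) * v j =
      ∑ j ∈ range (2 ^ n), (Mt n i j : ℂ) * u (2 ^ n + i) * v (2 ^ n + j) -
        (2 ^ n : ℂ)⁻¹ * (u (2 ^ n + i) * Sf n v) := by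
    intro i hi
    rw [mem_range] at hi
    rw [sum_split, add_comm, sub_eq_add_neg]
    congr 1
    · apply sum_congr rfl
      intro j hj
      rw [mem_range] at hj
      rw [Mt, if_neg (by omega), if_neg (by omega), Nat.add_sub_cancel_left,
        Nat.add_sub_cancel_left]
    · unfold Sf
      rw [mul_sum, mul_sum, ← sum_neg_distrib]
      apply sum_congr rfl
      intro j hj
      rw [mem_range] at hj
      rw [Mt, if_neg (by omega), if_pos hj]
      push_cast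
      ring
  rw [sum_congr rfl h1, sum_congr rfl h2, sum_add_distrib, sum_sub_distrib, ← mul_sum, ← mul_sum,
    ← sum_mul, ← sum_mul]
  unfold Sf
  ring

/-- the energy -/
noncomputable def En (n : ℕ) (u : ℕ → ℂ) : ℝ :=
  ∑ i ∈ range (2 ^ n), ‖u i‖ ^ 2 - (2 ^ n : ℝ)⁻¹ * ‖Sf n u‖ ^ 2

lemma Sf_succ (n : ℕ) (u : ℕ → ℂ) : Sf (n + 1) u = Sf n u + Sf n (fun i => u (2 ^ n + i)) := by
  unfold Sf
  rw [sum_split]

lemma En_succ (n : ℕ) (u : ℕ → ℂ) :
    En (n + 1) u = En n u + En n (fun i => u (2 ^ n + i)) +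
      (2 ^ (n + 1) : ℝ)⁻¹ * ‖Sf n u - Sf n (fun i => u (2 ^ n + i))‖ ^ 2 := by
  unfold En
  rw [sum_split, Sf_succ]
  set a := Sf n u
  set b := Sf n (fun i => u (2 ^ n + i))
  have h := parallelogram_law_with_norm ℝ a b
  have h2 : (2 ^ (n + 1) : ℝ)⁻¹ = (2 ^ n : ℝ)⁻¹ / 2 := by
    rw [pow_succ, mul_inv]
    ring
  rw [h2]
  have h3 : ‖a + b‖ ^ 2 + ‖a - b‖ ^ 2 = 2 * (‖a‖ ^ 2 + ‖b‖ ^ 2) := by
    nlinarith [h]
  have h4 : ‖a + b‖ ^ 2 = 2 * (‖a‖ ^ 2 + ‖b‖ ^ 2) - ‖a - b‖ ^ 2 := by linarith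
  rw [h4]
  ring

lemma Sf_le (n : ℕ) (u : ℕ → ℂ) (hu : ∀ i, ‖u i‖ ≤ 1) : ‖Sf n u‖ ≤ 2 ^ n := by
  unfold Sf
  refine (norm_sum_le _ _).trans ?_
  refine (sum_le_sum (fun i _ => hu i)).trans ?_
  simp

lemma En_le (n : ℕ) (u : ℕ → ℂ) (hu : ∀ i, ‖u i‖ ≤ 1) : En n u ≤ 2 ^ n := by
  unfold En
  have h1 : ∑ i ∈ range (2 ^ n), ‖u i‖ ^ 2 ≤ ∑ i ∈ range (2 ^ n), (1 : ℝ) := by
    apply sum_le_sum
    intro i _
    exact pow_le_one₀ (norm_nonneg _) (hu i)
  have h2 : ∑ i ∈ range (2 ^ n), (1 : ℝ) = 2 ^ n := by simp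
  have h3 : (0 : ℝ) ≤ (2 ^ n : ℝ)⁻¹ * ‖Sf n u‖ ^ 2 := by positivity
  linarith

lemma cross {a b c d : ℂ} {L t : ℝ} (hL : 0 < L) (hcd : ‖c + d‖ ≤ 2 * t) (hab : ‖a + b‖ ≤ 2 * t)
    (ht : 0 < t) :
    ‖((t : ℂ))⁻¹ * (a * d - b * c)‖ ≤
      L * ((2 * t)⁻¹ * ‖a - b‖ ^ 2) + L * ((2 * t)⁻¹ * ‖c - d‖ ^ 2) + t / L := by
  have e : a * d - b * c = ((a - b) * (c + d) - (a + b) * (c - d)) / 2 := by ring
  have h1 : ‖a * d - b * c‖ ≤ (‖a - b‖ * (2 * t) + (2 * t) * ‖c - d‖) / 2 := by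
    rw [e, norm_div]
    have : ‖(2 : ℂ)‖ = 2 := by simp
    rw [this]
    apply div_le_div_of_nonneg_right _ (by norm_num)
    refine (norm_sub_le _ _).trans ?_
    rw [norm_mul, norm_mul]
    gcongr
  rw [norm_mul, norm_inv, Complex.norm_real, Real.norm_of_nonneg ht.le]
  have h2 : t⁻¹ * ‖a * d - b * c‖ ≤ ‖a - b‖ + ‖c - d‖ := by
    calc t⁻¹ * ‖a * d - b * c‖ ≤ t⁻¹ * ((‖a - b‖ * (2 * t) + (2 * t) * ‖c - d‖) / 2) := by gcongr
      _ = ‖a - b‖ + ‖c - d‖ := by field_simp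
  refine h2.trans ?_
  -- x ≤ L x^2 / (2t) + t/(2L)
  have key : ∀ x : ℝ, x ≤ L * ((2 * t)⁻¹ * x ^ 2) + t / L / 2 := by
    intro x
    have h3 : L * ((2 * t)⁻¹ * x ^ 2) + t / L / 2 - x = (L * x - t) ^ 2 / (2 * t * L) := by
      field_simp
      ring
    have h4 : 0 ≤ (L * x - t) ^ 2 / (2 * t * L) := by positivity
    linarith
  have k1 := key ‖a - b‖
  have k2 := key ‖c - d‖
  have k3 : t / L / 2 + t / L / 2 = t / L := by ring
  linarith

lemma Bf_le (L : ℝ) (hL : 0 < L) : ∀ (n : ℕ) (u v : ℕ → ℂ), (∀ i, ‖u i‖ ≤ 1) → (∀ i, ‖v i‖ ≤ 1) →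
    ‖Bf n u v‖ ≤ L * (En n u + En n v) + n * 2 ^ n / (2 * L) := by
  intro n
  induction n with
  | zero =>
    intro u v hu hv
    have h1 : Bf 0 u v = 0 := by
      unfold Bf
      simp [Mt]
    have h2 : ∀ u : ℕ → ℂ, En 0 u = 0 := by
      intro u
      unfold En Sf
      simp
    rw [h1, h2, h2]
    simp
  | succ n ih =>
    intro u v hu hv
    rw [Bf_succ, En_succ, En_succ]
    have i1 := ih u v hu hv
    have i2 := ih (fun i => u (2 ^ n + i)) (fun i => v (2 ^ n + i)) (fun i => hu _) (fun i => hv _)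
    have hab : ‖Sf n u + Sf n (fun i => u (2 ^ n + i))‖ ≤ 2 * 2 ^ n := by
      rw [← Sf_succ]
      refine (Sf_le (n + 1) u hu).trans ?_
      rw [pow_succ, mul_comm]
    have hcd : ‖Sf n v + Sf n (fun i => v (2 ^ n + i))‖ ≤ 2 * 2 ^ n := by
      rw [← Sf_succ]
      refine (Sf_le (n + 1) v hv).trans ?_
      rw [pow_succ, mul_comm]
    have c := cross (L := L) (t := 2 ^ n) hL hcd hab (by positivity)
    have e0 : (((2 ^ n : ℝ) : ℂ))⁻¹ = (2 ^ n : ℂ)⁻¹ := by push_cast; rfl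
    rw [e0] at c
    have e1 : (2 * 2 ^ n : ℝ) = 2 ^ (n + 1) := by rw [pow_succ, mul_comm]
    rw [e1] at c
    refine (norm_add_le _ _).trans ?_
    have i3 := norm_add_le (Bf n u v) (Bf n (fun i => u (2 ^ n + i)) (fun i => v (2 ^ n + i)))
    have e2 : ((n + 1 : ℕ) : ℝ) * 2 ^ (n + 1) / (2 * L) =
        n * 2 ^ n / (2 * L) + n * 2 ^ n / (2 * L) + 2 ^ n / L := by
      push_cast
      rw [pow_succ]
      field_simp
      ring
    rw [e2]
    linarith

/-- upper sum -/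
lemma upper (n : ℕ) : ∑ i ∈ range (2 ^ n), ∑ j ∈ range (2 ^ n), (if i ≤ j then Mt n i j else 0) =
    (n : ℝ) * 2 ^ n / 2 := by
  induction n with
  | zero => simp [Mt]
  | succ n ih =>
    rw [sum_split]
    have h1 : ∀ i ∈ range (2 ^ n), ∑ j ∈ range (2 ^ (n + 1)),
        (if i ≤ j then Mt (n + 1) i j else 0) =
        ∑ j ∈ range (2 ^ n), (if i ≤ j then Mt n i j else 0) + 1 := by
      intro i hi
      rw [mem_range] at hi
      rw [sum_split]
      congr 1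
      · apply sum_congr rfl
        intro j hj
        rw [mem_range] at hj
        rw [Mt, if_pos hi, if_pos hj]
      · have : ∀ j ∈ range (2 ^ n), (if i ≤ 2 ^ n + j then Mt (n + 1) i (2 ^ n + j) else 0) =
            (2 ^ n : ℝ)⁻¹ := by
          intro j hj
          rw [if_pos (by omega), Mt, if_pos hi, if_neg (by omega)]
        rw [sum_congr rfl this, sum_const, card_range, nsmul_eq_mul]
        push_cast
        field_simp
    have h2 : ∀ i ∈ range (2 ^ n), ∑ j ∈ range (2 ^ (n + 1)),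
        (if 2 ^ n + i ≤ j then Mt (n + 1) (2 ^ n + i) j else 0) =
        ∑ j ∈ range (2 ^ n), (if i ≤ j then Mt n i j else 0) := by
      intro i hi
      rw [mem_range] at hi
      rw [sum_split]
      have h3 : ∑ j ∈ range (2 ^ n), (if 2 ^ n + i ≤ j then Mt (n + 1) (2 ^ n + i) j else 0) = 0 := by
        apply sum_eq_zero
        intro j hj
        rw [mem_range] at hj
        rw [if_neg (by omega)]
      rw [h3, zero_add]
      apply sum_congr rfl
      intro j hj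
      rw [mem_range] at hj
      by_cases hij : i ≤ j
      · rw [if_pos (by omega), if_pos hij, Mt, if_neg (by omega), if_neg (by omega),
          Nat.add_sub_cancel_left, Nat.add_sub_cancel_left]
      · rw [if_neg (by omega), if_neg hij]
    rw [sum_congr rfl h1, sum_congr rfl h2, sum_add_distrib, ih, sum_const, card_range,
      nsmul_eq_mul]
    push_cast
    rw [pow_succ]
    ring

theorem mat : Pool.Agent.W667.DT.S_MAT := by
  intro c
  obtain ⟨m, hm⟩ := exists_nat_gt (max (2 * c) 0)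
  have hm0 : (0 : ℝ) < m := lt_of_le_of_lt (le_max_right _ _) hm
  have hmc : 2 * c < m := lt_of_le_of_lt (le_max_left _ _) hm
  set n := 4 * m ^ 2 with hn
  have hpos : (0 : ℝ) < 4 * m * 2 ^ n := by positivity
  refine ⟨2 ^ n, fun i j => (4 * m * 2 ^ n : ℝ)⁻¹ * Mt n i j, ?_, ?_⟩
  · intro u v hu hv
    set u' : ℕ → ℂ := fun i => if h : i < 2 ^ n then u ⟨i, h⟩ else 0 with hu'
    set v' : ℕ → ℂ := fun i => if h : i < 2 ^ n then v ⟨i, h⟩ else 0 with hv'
    have b1 : ∀ i, ‖u' i‖ ≤ 1 := by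
      intro i
      rw [hu']
      by_cases h : i < 2 ^ n
      · simp only [h, dif_pos]
        exact hu _
      · simp [h]
    have b2 : ∀ i, ‖v' i‖ ≤ 1 := by
      intro i
      rw [hv']
      by_cases h : i < 2 ^ n
      · simp only [h, dif_pos]
        exact hv _
      · simp [h]
    have e : ∑ i : Fin (2 ^ n), ∑ j : Fin (2 ^ n),
        (((4 * m * 2 ^ n : ℝ)⁻¹ * Mt n i j : ℝ) : ℂ) * u i * v j =
        ((4 * m * 2 ^ n : ℝ)⁻¹ : ℝ) * Bf n u' v' := by
      unfold Bf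
      rw [← Fin.sum_univ_eq_sum_range (fun i => ∑ j ∈ range (2 ^ n), (Mt n i j : ℂ) * u' i * v' j),
        mul_sum]
      apply sum_congr rfl
      intro i _
      rw [← Fin.sum_univ_eq_sum_range (fun j => (Mt n i j : ℂ) * u' i * v' j), mul_sum]
      apply sum_congr rfl
      intro j _
      have h1 : u' i = u i := by
        rw [hu']
        simp
      have h2 : v' j = v j := by
        rw [hv']
        simp
      rw [h1, h2, Complex.ofReal_mul]
      ring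
    rw [e, norm_mul, Complex.norm_real, Real.norm_of_nonneg (inv_nonneg.2 hpos.le),
      inv_mul_le_iff₀ hpos, mul_one]
    have h3 := Bf_le m hm0 n u' v' b1 b2
    have h4 := En_le n u' b1
    have h5 := En_le n v' b2
    have h6 : (n : ℝ) * 2 ^ n / (2 * m) = 2 * m * 2 ^ n := by
      rw [hn]
      push_cast
      field_simp
      ring
    rw [h6] at h3
    have h7 : (m : ℝ) * (En n u' + En n v') ≤ m * (2 ^ n + 2 ^ n) := by gcongr
    linarith
  · have e : ∑ i : Fin (2 ^ n), ∑ j : Fin (2 ^ n),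
        (if i ≤ j then (4 * m * 2 ^ n : ℝ)⁻¹ * Mt n i j else 0) =
        (4 * m * 2 ^ n : ℝ)⁻¹ * ((n : ℝ) * 2 ^ n / 2) := by
      rw [← upper, ← Fin.sum_univ_eq_sum_range
        (fun i => ∑ j ∈ range (2 ^ n), (if i ≤ j then Mt n i j else 0)), mul_sum]
      apply sum_congr rfl
      intro i _
      rw [← Fin.sum_univ_eq_sum_range (fun j => (if (i : ℕ) ≤ j then Mt n i j else 0)), mul_sum]
      apply sum_congr rfl
      intro j _
      by_cases h : i ≤ j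
      · rw [if_pos h, if_pos (Fin.le_def.1 h)]
      · rw [if_neg h, if_neg (fun h2 => h (Fin.le_def.2 h2)), mul_zero]
    rw [e]
    have h6 : (4 * m * 2 ^ n : ℝ)⁻¹ * ((n : ℝ) * 2 ^ n / 2) = m / 2 := by
      rw [hn]
      push_cast
      field_simp
    rw [h6]
    linarith

end Pool.Agent.W965.DT
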